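import Pool.Agent.Q294.Md.Asm3
import Pool.Agent.Q294.Md.Var2
import Pool.Agent.Q146.Md.Comb
import Pool.Agent.Q296.Md.Lim
import Pool.Agent.Q296.Md.Loc

/-!
The number of components of a uniform meandric system which meet the axis in exactly two points
satisfies the central limit theorem.
-/

set_option autoImplicit false

namespace Pool.Agent.Results.MP_3d3bcd_pr.CentralLimitTheorem

open Filter Topology Finset ProbabilityTheory

/-- `m` is the set of the pairs `(i, j)`, `i < j`, of a non-crossing perfect matching of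
`{1, …, 2n}`. -/
def IsMatching (n : ℕ) (m : Finset (ℕ × ℕ)) : Prop :=
  (∀ p ∈ m, 1 ≤ p.1 ∧ p.1 < p.2 ∧ p.2 ≤ 2 * n) ∧
    (∀ x, 1 ≤ x → x ≤ 2 * n → ∃! p, p ∈ m ∧ (x = p.1 ∨ x = p.2)) ∧
    ∀ p ∈ m, ∀ q ∈ m, ¬ (p.1 < q.1 ∧ q.1 < p.2 ∧ p.2 < q.2)

open Classical in
/-- The set of the non-crossing perfect matchings of `{1, …, 2n}`. -/
noncomputable def matchings (n : ℕ) : Finset (Finset (ℕ × ℕ)) :=
  ((Icc 1 (2 * n)) ×ˢ (Icc 1 (2 * n))).powerset.filter (IsMatching n)

/-- The meandric systems of size `n`: pairs of non-crossing perfect matchings. -/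
noncomputable def systems (n : ℕ) : Finset (Finset (ℕ × ℕ) × Finset (ℕ × ℕ)) :=
  matchings n ×ˢ matchings n

/-- The number of the components which meet the axis in exactly two points, i.e. the number of the
pairs which belong to both matchings. -/
def Y (s : Finset (ℕ × ℕ) × Finset (ℕ × ℕ)) : ℕ := (s.1 ∩ s.2).card

/-- The mean of `Y` for the uniform meandric system of size `n`. -/
noncomputable def mean (n : ℕ) : ℝ := (∑ s ∈ systems n, (Y s : ℝ)) / (systems n).card

/-- The variance of `Y` for the uniform meandric system of size `n`. -/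
noncomputable def var (n : ℕ) : ℝ :=
  (∑ s ∈ systems n, ((Y s : ℝ) - mean n) ^ 2) / (systems n).card

theorem isMatching_iff (n : ℕ) (m : Finset (ℕ × ℕ)) :
    IsMatching n m ↔ Q294.Md.IsM (Icc 1 (2 * n)) m := by
  constructor
  · rintro ⟨h1, h2, h3⟩
    refine ⟨fun p hp => (h1 p hp).2.1, fun p hp => ?_, fun x hx => ?_, h3⟩
    · have := h1 p hp
      rw [mem_Icc, mem_Icc]
      omega
    · rw [mem_Icc] at hx
      exact h2 x hx.1 hx.2
  · rintro ⟨h1, h2, h3, h4⟩
    refine ⟨fun p hp => ?_, fun x hx1 hx2 => h3 x (mem_Icc.2 ⟨hx1, hx2⟩), h4⟩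
    have h5 := h2 p hp
    have h6 := h1 p hp
    rw [mem_Icc, mem_Icc] at h5
    omega

theorem matchings_eq (n : ℕ) : matchings n = Q294.Md.SS n := by
  classical
  ext m
  rw [Q294.Md.SS, Q294.Md.mem_NC, ← isMatching_iff]
  unfold matchings
  rw [mem_filter, mem_powerset]
  constructor
  · exact fun h => h.2
  · intro h
    refine ⟨fun p hp => ?_, h⟩
    have := h.1 p hp
    rw [mem_product, mem_Icc, mem_Icc]
    omega

theorem systems_eq (n : ℕ) : systems n = Q294.Md.Om n := by
  unfold systems Q294.Md.Om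
  rw [matchings_eq]

theorem mean_eq (n : ℕ) : mean n = Q294.Md.mn n := by
  unfold mean Q294.Md.mn
  rw [systems_eq]
  exact Q294.Md.sum_Om n (fun y => (y : ℝ))

theorem var_eq (n : ℕ) : var n = Q294.Md.vr n := by
  unfold var Q294.Md.vr
  rw [systems_eq, mean_eq]
  exact Q294.Md.sum_Om n (fun y => ((y : ℝ) - Q294.Md.mn n) ^ 2)

/-- **Theorem.** Let `Y` be the number of components of a uniform meandric system of size `n` which
meet the axis in exactly two points. Then `(Y - E Y) / √(Var Y)` converges in distribution to the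
standard normal law. Moreover `E Y / n → 2/π - 1/2` and
`Var Y / n → 2 (1/π - 1/4) (5/4 - 1/π)`. -/
theorem result :
    (∀ x : ℝ, Tendsto (fun n : ℕ =>
      (((systems n).filter fun s => ((Y s : ℝ) - mean n) / √(var n) ≤ x).card : ℝ) /
        (systems n).card) atTop (𝓝 ((gaussianReal 0 1).real (Set.Iic x)))) ∧
    Tendsto (fun n : ℕ => mean n / n) atTop (𝓝 (2 / Real.pi - 1 / 2)) ∧
    Tendsto (fun n : ℕ => var n / n) atTop
      (𝓝 (2 * (1 / Real.pi - 1 / 4) * (5 / 4 - 1 / Real.pi))) := by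
  have hF : Q294.Md.Formula := Q146.Md.comb Q294.Md.base Q294.Md.step
  have hl : Q294.Md.S_limit := Q296.Md.lim
  have hm : Q294.Md.S_mean := Q294.Md.mean
  have hv : Q294.Md.S_var := Q294.Md.var
  refine ⟨fun x => ?_, ?_, ?_⟩
  · have h1 := Q294.Md.clt hF (hl Q296.Md.loc) hm hv x
    refine h1.congr fun n => ?_
    rw [systems_eq, mean_eq, var_eq]
    rfl
  · have h1 := Q294.Md.two_lim.mul (Q294.Md.al_lim hm)
    have e1 : 2 * Q294.Md.y0 = 2 / Real.pi - 1 / 2 := by
      rw [Q294.Md.y0_eq]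
      ring
    rw [e1] at h1
    refine h1.congr fun n => ?_
    rw [mean_eq]
    unfold Q294.Md.mn
    rw [Q294.Md.EE_mean hF]
    ring
  · have h1 := Q294.Md.vr_lim hF hm hv
    have e1 : 2 * (Q294.Md.y0 - Q294.Md.y0 ^ 2) =
        2 * (1 / Real.pi - 1 / 4) * (5 / 4 - 1 / Real.pi) := by
      rw [Q294.Md.y0_eq]
      ring
    rw [e1] at h1
    refine h1.congr fun n => ?_
    rw [var_eq]

end Pool.Agent.Results.MP_3d3bcd_pr.CentralLimitTheorem
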